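import Pool.Agent.Q116.IS.Main

/-!
# Stability of the edge-isoperimetric inequality: `f (2 ^ (-j)) = j 2 ^ (-j)`

For `A ⊆ {0,1}^n` with `|A| = 2 ^ k` let `ε = (|∂A| - |A| log₂ (2 ^ n / |A|)) / |A|`. If every subcube
`C` satisfies `|A ∆ C| ≥ 2 ^ (-j) |A|`, then `ε ≥ j 2 ^ (-j)`, with equality for a subcube with one
vertex replaced by a neighbour outside.

Proof. It suffices to find, if `ε < 1/2`, a subcube `C` of dimension `k` with `|A \ C| < |A| / 8`; then
`ε ≥ x log₂ (1/x)` for `x = |A ∆ C| / |A|` by counting. Let `s n` be the number of edges of the first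
`n` vertices of the cube (sum of the binary digit sums below `n`). If `C` is any subcube and
`|A \ C| = r`, then `2 e(A) ≤ 2 s(2^k - r) + 2 s(r) + 2 r`, and this excludes `r/|A|` in
`[1/8, 1/4]`. (1) For the smaller half `m` of `A` in a direction this and the identity
`s(2^k-m)+s(m)+m = s(2^k-m')+s(m')+m'`, `m + m' = 2^(k-1)`, exclude `m/|A|` in `[1/8, 3/8]`. (2) Let `S`
be the set of directions with `m/|A| > 3/8`. Fixing the majority values of the directions outside
of `S` one after the other loses less than `1/8` each time, so by the excluded interval less than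
`1/8` of `A` in total. (3) For `T ⊆ S` let `r_T` be the sum of `(a_y - 2^(k-|T|))_+` over the sizes
`a_y` of the fibres of `A` over `{0,1}^T`. Replacing the fibres by initial segments (here done
with numbers only) gives `2 e(A) ≤ 2 s(2^k - r_T) + 2 s(r_T) + 2 r_T`, so that again
`r_T/|A|` is not in `[1/8,1/4]`; adding a direction of `S` to `T` increases `r_T/|A|` by less than
`1/8`, because by compression `A` has more than `3/8 |A|` edges in this direction. Hence
`r_T < |A|/8` for all `T ⊆ S` with at most `k` elements, and a further direction of `S` is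
impossible. So `|S| ≤ k`, and the subcube in (2) has dimension `k`.
-/

set_option autoImplicit false

namespace Pool.Agent.Results.MP_ab80ef_co.StabilityValues

open Finset

/-- The hypercube graph `Q_n`: two vertices are adjacent if they differ in exactly one
coordinate. -/
def hypercube (n : ℕ) : SimpleGraph (Fin n → Bool) where
  Adj x y := {i | x i ≠ y i}.ncard = 1
  symm := ⟨fun x y h => by
    have : {i | y i ≠ x i} = {i | x i ≠ y i} := by
      ext i; exact ⟨fun h => Ne.symm h, fun h => Ne.symm h⟩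
    rw [this]; exact h⟩
  loopless := ⟨fun x h => by simp at h⟩

/-- The edge boundary `∂A`: the edges of `Q_n` with exactly one endpoint in `A`. -/
def boundary {n : ℕ} (A : Finset (Fin n → Bool)) : Set (Sym2 (Fin n → Bool)) :=
  {e | e ∈ (hypercube n).edgeSet ∧ ∃ x y, e = s(x, y) ∧ x ∈ A ∧ y ∉ A}

/-- `C` is a subcube: the set of all `x` with `x i = a i` for `i ∈ S`. -/
def IsSubcube {n : ℕ} (C : Finset (Fin n → Bool)) : Prop :=
  ∃ (S : Finset (Fin n)) (a : Fin n → Bool), ∀ x, x ∈ C ↔ ∀ i ∈ S, x i = a i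

/-- The numbers `(|∂A| - |A| log₂ (2 ^ n / |A|)) / |A|` for all `n ≥ 1` and all `A ⊆ {0,1}^n` such that
`|A|` is a power of two and `|A ∆ C| ≥ δ |A|` for every subcube `C`. -/
def values (δ : ℝ) : Set ℝ :=
  {t | ∃ (n : ℕ) (A : Finset (Fin n → Bool)), 1 ≤ n ∧ (∃ k, A.card = 2 ^ k) ∧
    (∀ C : Finset (Fin n → Bool), IsSubcube C → δ * (A.card : ℝ) ≤ ((symmDiff A C).card : ℝ)) ∧
    t = (((boundary A).ncard : ℝ) - A.card * Real.logb 2 (2 ^ n / A.card)) / A.card}

/-- The function `f`. -/
noncomputable def f (δ : ℝ) : ℝ := sInf (values δ)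

open Q116.IS

theorem adj_fl {n : ℕ} (i : Fin n) (x : Fin n → Bool) : (hypercube n).Adj x (fl i x) := by
  show {j | x j ≠ fl i x j}.ncard = 1
  rw [Set.ncard_eq_one]
  refine ⟨i, ?_⟩
  ext j
  simp only [Set.mem_setOf_eq, Set.mem_singleton_iff]
  constructor
  · intro h
    by_contra hne
    exact h (fl_ne hne x).symm
  · rintro rfl
    rw [fl_same]
    cases x j <;> simp

theorem exists_fl {n : ℕ} {x y : Fin n → Bool} (h : (hypercube n).Adj x y) : ∃ i, y = fl i x := by
  have h : {j | x j ≠ y j}.ncard = 1 := h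
  rw [Set.ncard_eq_one] at h
  obtain ⟨i, hi⟩ := h
  refine ⟨i, funext fun j => ?_⟩
  by_cases hj : j = i
  · subst hj
    have : j ∈ {j | x j ≠ y j} := by rw [hi]; rfl
    rw [fl_same]
    have h2 : x j ≠ y j := this
    cases hx : x j <;> cases hy : y j <;> simp_all
  · rw [fl_ne hj]
    by_contra hne
    have : j ∈ ({i} : Set (Fin n)) := by rw [← hi]; exact fun h => hne h.symm
    exact hj this

theorem boundary_ncard {n : ℕ} (A : Finset (Fin n → Bool)) :
    (boundary A).ncard + D A = n * A.card := by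
  have h1 : boundary A = (((univ : Finset (Fin n)).sigma
      (fun i => A.filter (fun x => fl i x ∉ A))).image (fun p => s(p.2, fl p.1 p.2)) :
      Finset (Sym2 (Fin n → Bool))) := by
    ext e
    simp only [coe_image, Set.mem_image, mem_coe, mem_sigma, mem_univ, true_and, mem_filter,
      Sigma.exists]
    constructor
    · rintro ⟨he, x, y, rfl, hx, hy⟩
      have he' : (hypercube n).Adj x y := he
      obtain ⟨i, rfl⟩ := exists_fl he'
      exact ⟨i, x, ⟨hx, hy⟩, rfl⟩
    · rintro ⟨i, x, ⟨hx, hy⟩, rfl⟩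
      exact ⟨adj_fl i x, x, fl i x, rfl, hx, hy⟩
  rw [h1, Set.ncard_coe_finset, card_image_of_injOn, card_sigma]
  · unfold D
    rw [← sum_add_distrib]
    have h2 : ∀ i : Fin n, (A.filter (fun x => fl i x ∉ A)).card +
        (A.filter (fun x => fl i x ∈ A)).card = A.card := by
      intro i
      have := card_filter_add_card_filter_not (s := A) (fun x => fl i x ∈ A)
      omega
    rw [sum_congr rfl fun i _ => h2 i]
    simp
  · rintro ⟨i, x⟩ hx ⟨j, y⟩ hy hxy
    simp only [coe_sigma, Set.mem_sigma_iff, mem_coe, mem_filter, mem_univ, true_and] at hx hy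
    have hxy : s(x, fl i x) = s(y, fl j y) := hxy
    rw [Sym2.eq_iff] at hxy
    rcases hxy with ⟨rfl, h⟩ | ⟨h1, h2⟩
    · have : i = j := by
        by_contra hne
        have h3 := congrFun h i
        rw [fl_same, fl_ne hne] at h3
        cases h4 : x i <;> simp [h4] at h3
      subst this
      rfl
    · rw [h1] at hx
      exact absurd hx.1 hy.2

theorem value_eq {n : ℕ} {A : Finset (Fin n → Bool)} {k : ℕ} (hA : A.card = 2 ^ k) :
    (((boundary A).ncard : ℝ) - A.card * Real.logb 2 (2 ^ n / A.card)) / A.card =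
      (k * 2 ^ k - D A) / 2 ^ k := by
  have h1 := boundary_ncard A
  rw [hA] at h1
  have h2 : ((boundary A).ncard : ℝ) + D A = n * 2 ^ k := by exact_mod_cast h1
  have h3 : Real.logb 2 (2 ^ n / (A.card : ℝ)) = n - k := by
    rw [hA]
    push_cast
    rw [Real.logb_div (by positivity) (by positivity), Real.logb_pow, Real.logb_pow,
      Real.logb_self_eq_one (by norm_num)]
    ring
  rw [h3, hA]
  push_cast
  congr 1
  linarith

theorem half_bound (j : ℕ) (hj : 1 ≤ j) : (j : ℝ) * (1 / 2) ^ j ≤ 1 / 2 := by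
  have h : 2 * j ≤ 2 ^ j := by
    induction j, hj using Nat.le_induction with
    | base => norm_num
    | succ j hj ih => rw [pow_succ]; omega
  have h' : (2 * j : ℝ) ≤ 2 ^ j := by exact_mod_cast h
  rw [one_div, inv_pow, ← div_eq_mul_inv, div_le_iff₀ (by positivity)]
  linarith

theorem lower {n j k : ℕ} (hj : 1 ≤ j) {A : Finset (Fin n → Bool)} (hA : A.card = 2 ^ k)
    (hC : ∀ C : Finset (Fin n → Bool), IsSubcube C →
      (1 / 2 : ℝ) ^ j * (A.card : ℝ) ≤ ((symmDiff A C).card : ℝ)) :
    (j : ℝ) * (1 / 2) ^ j ≤ (k * 2 ^ k - D A) / 2 ^ k := by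
  rw [le_div_iff₀ (by positivity)]
  by_cases hg : 2 * (k * 2 ^ k) < 2 * D A + 2 ^ k
  · obtain ⟨R, z, h1, h2⟩ := structure_thm (A := A) (k := k) ⟨hA, hg⟩
    set C := (univ : Finset (Fin n → Bool)).filter (fun x => ∀ i ∈ R, x i = z i) with hCdef
    have h3 := hC C ⟨R, z, fun x => by simp [hCdef]⟩
    have h4 : (symmDiff A C).card = 2 * (out A R z).card := by
      have e1 : (A \ C) = out A R z := by
        ext x
        simp only [mem_sdiff, hCdef, mem_filter, mem_univ, true_and, out]
        push Not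
        rfl
      have e2 : (symmDiff A C).card = (A \ C).card + (C \ A).card := by
        rw [symmDiff_def, sup_eq_union, card_union_of_disjoint disjoint_sdiff_sdiff]
      have e3 := card_sdiff_add_card_inter A C
      have e4 := card_sdiff_add_card_inter C A
      rw [inter_comm C A] at e4
      have e5 : C.card = 2 ^ k := by
        rw [← h1]
        congr 1
        ext x
        simp [hCdef]
      rw [e2, ← e1]
      omega
    rw [h4, hA] at h3
    have h5 : 2 ^ k ≤ 2 ^ j * (2 * (out A R z).card) := by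
      have : (2 : ℝ) ^ k ≤ 2 ^ j * (2 * ((out A R z).card : ℝ)) := by
        push_cast at h3
        rw [one_div, inv_pow, inv_mul_le_iff₀ (by positivity)] at h3
        exact h3
      exact_mod_cast this
    have h6 := last k j _ h2 h5
    have h7 : (D A : ℝ) ≤ N k (out A R z).card := by exact_mod_cast D_le_out A R z k hA
    have h8 : (j : ℝ) * (1 / 2) ^ j * 2 ^ k = (j * 2 ^ k : ℝ) / 2 ^ j := by
      rw [one_div, inv_pow]
      field_simp
    rw [h8]
    linarith
  · have h1 : 2 * D A + 2 ^ k ≤ 2 * (k * 2 ^ k) := by omega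
    have h2 : (2 * (D A : ℝ) + 2 ^ k) ≤ 2 * (k * 2 ^ k) := by exact_mod_cast h1
    have h3 := half_bound j hj
    have h4 : (j : ℝ) * (1 / 2) ^ j * 2 ^ k ≤ 1 / 2 * 2 ^ k :=
      mul_le_mul_of_nonneg_right h3 (by positivity)
    linarith

section Example

variable (j : ℕ)

/-- the zero vertex, the last unit vector and the vertex `(1, ..., 1, 0)` -/
def zv : Fin (j + 2) → Bool := fun _ => false
def uv : Fin (j + 2) → Bool := fl (Fin.last (j + 1)) (zv j)
def vv : Fin (j + 2) → Bool := fun i => decide (i ≠ Fin.last (j + 1))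

/-- the subcube `x_last = 0` -/
def H : Finset (Fin (j + 2) → Bool) := univ.filter (fun x => x (Fin.last (j + 1)) = false)

/-- the example -/
def ex : Finset (Fin (j + 2) → Bool) := insert (uv j) ((H j).erase (vv j))

theorem card_H : (H j).card = 2 ^ (j + 1) := by
  have h := card_subcube ({Fin.last (j + 1)} : Finset (Fin (j + 2))) (fun _ => false)
  rw [card_singleton, Fintype.card_fin] at h
  unfold H
  rw [show j + 2 - 1 = j + 1 by omega] at h
  rw [← h]
  congr 1
  ext x
  simp

theorem mem_H {x : Fin (j + 2) → Bool} : x ∈ H j ↔ x (Fin.last (j + 1)) = false := by simp [H]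

theorem uv_last : uv j (Fin.last (j + 1)) = true := by simp [uv, zv]

theorem vv_mem : vv j ∈ H j := by rw [mem_H]; simp [vv]

theorem uv_notMem : uv j ∉ (H j).erase (vv j) := by
  intro h
  have := (mem_H j).1 (mem_of_mem_erase h)
  rw [uv_last] at this
  exact absurd this (by decide)

theorem card_ex : (ex j).card = 2 ^ (j + 1) := by
  unfold ex
  rw [card_insert_of_notMem (uv_notMem j), card_erase_of_mem (vv_mem j), card_H]
  have : 0 < 2 ^ (j + 1) := by positivity
  omega

theorem mem_ex {x : Fin (j + 2) → Bool} :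
    x ∈ ex j ↔ x = uv j ∨ (x (Fin.last (j + 1)) = false ∧ x ≠ vv j) := by
  unfold ex
  rw [mem_insert, mem_erase, mem_H]
  tauto

variable {j}

theorem zv_ne (hj : 1 ≤ j) : zv j ≠ vv j := by
  intro h
  have := congrFun h 0
  have h0 : (0 : Fin (j + 2)) ≠ Fin.last (j + 1) := by
    intro h; have := congrArg Fin.val h; simp at this
  simp [zv, vv, h0] at this

theorem fl_zv_mem (hj : 1 ≤ j) (i : Fin (j + 2)) : fl i (zv j) ∈ ex j := by
  rw [mem_ex]
  by_cases hi : i = Fin.last (j + 1)
  · left; rw [hi]; rfl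
  · right
    refine ⟨by rw [fl_ne (Ne.symm hi)]; rfl, ?_⟩
    intro h
    obtain ⟨l, hl1, hl2⟩ : ∃ l : Fin (j + 2), l ≠ i ∧ l ≠ Fin.last (j + 1) := by
      by_cases h0 : i = 0
      · refine ⟨1, by rw [h0]; simp, ?_⟩
        intro h; have := congrArg Fin.val h; simp at this; omega
      · refine ⟨0, Ne.symm h0, ?_⟩
        intro h; have := congrArg Fin.val h; simp at this
    have := congrFun h l
    rw [fl_ne hl1] at this
    simp [zv, vv, hl2] at this

theorem D_ex (hj : 1 ≤ j) : D (ex j) + 2 * j = (j + 1) * 2 ^ (j + 1) := by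
  unfold D
  rw [← add_sum_erase univ _ (mem_univ (Fin.last (j + 1)))]
  have h1 : (ex j).filter (fun x => fl (Fin.last (j + 1)) x ∈ ex j) = {zv j, uv j} := by
    ext x
    rw [mem_filter, mem_insert, mem_singleton]
    constructor
    · rintro ⟨hx, hx'⟩
      rw [mem_ex] at hx hx'
      rcases hx with hx | ⟨hx, _⟩
      · exact Or.inr hx
      · rcases hx' with hx' | ⟨hx', _⟩
        · left
          exact fl_inj _ hx'
        · rw [fl_same, hx] at hx'
          exact absurd hx' (by decide)
    · rintro (rfl | rfl)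
      · exact ⟨(mem_ex j).2 (Or.inr ⟨rfl, zv_ne hj⟩), fl_zv_mem hj _⟩
      · refine ⟨(mem_ex j).2 (Or.inl rfl), ?_⟩
        unfold uv
        rw [fl_fl]
        exact (mem_ex j).2 (Or.inr ⟨rfl, zv_ne hj⟩)
  have h2 : zv j ≠ uv j := by
    intro h
    have := congrFun h (Fin.last (j + 1))
    rw [uv_last] at this
    exact absurd this (by simp [zv])
  have h3 : ∀ i ∈ univ.erase (Fin.last (j + 1)),
      ((ex j).filter (fun x => fl i x ∈ ex j)).card = 2 ^ (j + 1) - 2 := by
    intro i hi
    have hi : i ≠ Fin.last (j + 1) := (mem_erase.1 hi).1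
    have h4 : (ex j).filter (fun x => fl i x ∈ ex j) = ((H j).erase (vv j)).erase (fl i (vv j)) := by
      ext x
      rw [mem_filter, mem_erase, mem_erase, mem_H, mem_ex, mem_ex, fl_ne (Ne.symm hi)]
      constructor
      · rintro ⟨hx | ⟨hx1, hx2⟩, hx' | ⟨hx1', hx2'⟩⟩
        · exfalso
          have h5 := congrFun hx' i
          rw [fl_same, hx] at h5
          cases h6 : uv j i <;> simp [h6] at h5
        · rw [hx, uv_last] at hx1'
          exact absurd hx1' (by decide)
        · exfalso
          have h5 := congrFun hx' (Fin.last (j + 1))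
          rw [fl_ne (Ne.symm hi), hx1, uv_last] at h5
          exact absurd h5 (by decide)
        · refine ⟨?_, hx2, hx1⟩
          rintro rfl
          exact hx2' (fl_fl i _)
      · rintro ⟨h5, h6, h7⟩
        refine ⟨Or.inr ⟨h7, h6⟩, Or.inr ⟨h7, ?_⟩⟩
        intro h8
        apply h5
        rw [← h8, fl_fl]
    have h5 : fl i (vv j) ∈ (H j).erase (vv j) := by
      rw [mem_erase, mem_H, fl_ne (Ne.symm hi)]
      refine ⟨?_, (mem_H j).1 (vv_mem j)⟩
      intro h
      have := congrFun h i
      rw [fl_same] at this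
      cases h6 : vv j i <;> simp [h6] at this
    rw [h4, card_erase_of_mem h5, card_erase_of_mem (vv_mem j), card_H]
    omega
  rw [h1, card_pair h2, sum_congr rfl h3, sum_const, card_erase_of_mem (mem_univ _), card_univ,
    Fintype.card_fin, smul_eq_mul]
  have h4 : 2 ≤ 2 ^ (j + 1) := by
    rw [pow_succ]
    have : 0 < 2 ^ j := by positivity
    omega
  obtain ⟨w, hw⟩ : ∃ w, 2 ^ (j + 1) = w + 2 := ⟨2 ^ (j + 1) - 2, by omega⟩
  rw [hw, show j + 2 - 1 = j + 1 by omega, Nat.add_sub_cancel]
  ring

theorem dist_ex (hj : 1 ≤ j) {C : Finset (Fin (j + 2) → Bool)} (hC : IsSubcube C) :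
    2 ≤ (symmDiff (ex j) C).card := by
  obtain ⟨S, a, ha⟩ := hC
  have e2 : (symmDiff (ex j) C).card = (ex j \ C).card + (C \ ex j).card := by
    rw [symmDiff_def, sup_eq_union, card_union_of_disjoint disjoint_sdiff_sdiff]
  have e3 := card_sdiff_add_card_inter (ex j) C
  have e4 := card_sdiff_add_card_inter C (ex j)
  rw [inter_comm C (ex j)] at e4
  rw [card_ex] at e3
  have h4 : 2 ^ (j + 1) = 4 * 2 ^ (j - 1) := by
    obtain ⟨l, rfl⟩ : ∃ l, j = l + 1 := ⟨j - 1, by omega⟩
    rw [Nat.add_sub_cancel]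
    ring
  have h5 : 0 < 2 ^ (j - 1) := by positivity
  have hCc : C.card = 2 ^ (j + 2 - S.card) := by
    have h := card_subcube S a
    rw [Fintype.card_fin] at h
    rw [← h]
    congr 1
    ext x
    rw [ha]
    simp
  by_contra hlt
  have h6 : (symmDiff (ex j) C).card = 0 ∨ (symmDiff (ex j) C).card = 1 := by omega
  rcases h6 with h6 | h6
  · -- `C` is the example
    have h7 : ex j = C := by
      have := card_eq_zero.1 h6
      exact symmDiff_eq_bot.1 this
    have h8 : ∀ i ∈ S, a i = false := by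
      intro i hi
      have : zv j ∈ C := by
        rw [← h7]; exact (mem_ex j).2 (Or.inr ⟨rfl, zv_ne hj⟩)
      exact ((ha _).1 this i hi).symm
    have h9 : S = ∅ := by
      rw [eq_empty_iff_forall_notMem]
      intro i hi
      have h10 : fl i (zv j) ∈ C := by rw [← h7]; exact fl_zv_mem hj i
      have h11 := (ha _).1 h10 i hi
      rw [fl_same, h8 i hi] at h11
      exact absurd h11 (by simp [zv])
    have h10 : vv j ∈ C := by
      rw [ha, h9]
      simp
    rw [← h7, mem_ex] at h10
    rcases h10 with h10 | h10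
    · have := congrFun h10 (Fin.last (j + 1))
      rw [uv_last] at this
      simp [vv] at this
    · exact h10.2 rfl
  · rcases Nat.eq_zero_or_pos (j + 2 - S.card) with h7 | h7
    · rw [h7, pow_zero] at hCc
      omega
    · obtain ⟨l, hl⟩ : ∃ l, j + 2 - S.card = l + 1 := ⟨j + 2 - S.card - 1, by omega⟩
      rw [hl, pow_succ] at hCc
      omega

end Example

/-- **Result.** `f (2 ^ (-j)) = j 2 ^ (-j)` for every `j ≥ 1`, and the infimum is attained. -/
theorem result (j : ℕ) (hj : 1 ≤ j) :
    IsLeast (values ((1 / 2) ^ j)) (j * (1 / 2) ^ j) ∧ f ((1 / 2) ^ j) = j * (1 / 2) ^ j := by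
  have h : IsLeast (values ((1 / 2) ^ j)) (j * (1 / 2) ^ j) := by
    constructor
    · refine ⟨j + 2, ex j, by omega, ⟨j + 1, card_ex j⟩, ?_, ?_⟩
      · intro C hC
        have h1 : (2 : ℝ) ≤ ((symmDiff (ex j) C).card : ℝ) := by exact_mod_cast dist_ex hj hC
        rw [card_ex]
        push_cast
        rw [pow_succ, one_div, inv_pow]
        have : ((2 : ℝ) ^ j)⁻¹ * (2 ^ j * 2) = 2 := by
          field_simp
        rw [this]
        exact h1
      · rw [value_eq (card_ex j)]
        have h1 : (D (ex j) : ℝ) + 2 * j = (j + 1) * 2 ^ (j + 1) := by exact_mod_cast D_ex hj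
        have h2 : ((j + 1 : ℕ) : ℝ) * 2 ^ (j + 1) - D (ex j) = 2 * j := by
          push_cast
          linarith
        rw [h2, one_div, inv_pow, pow_succ]
        field_simp
    · rintro t ⟨n, A, _, ⟨k, hA⟩, hC, rfl⟩
      rw [value_eq hA]
      exact lower hj hA hC
  exact ⟨h, h.csInf_eq⟩

end Pool.Agent.Results.MP_ab80ef_co.StabilityValues
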